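import Mathlib

namespace Pool.Agent.Results.MP_a2d1c1_co.Octagon

def X (v : ℕ) : ℕ := List.getD [0, 0, 10, 10, 0, 1, 1, 1, 9, 9, 9, 10, 1, 1, 2, 2, 2, 2, 8, 8, 8, 8, 9, 9, 2, 2, 2, 3, 3, 3, 4, 4, 6, 6, 7, 7, 7, 8, 8, 8, 3, 3, 4, 4, 5, 5, 6, 6, 7, 7, 4, 4, 6, 6, 5, 5, 5, 4, 6] v 0
def Y (v : ℕ) : ℕ := List.getD [2, 4, 2, 4, 3, 1, 3, 5, 1, 3, 5, 3, 2, 4, 0, 2, 4, 6, 0, 2, 4, 6, 2, 4, 1, 3, 5, 1, 3, 5, 0, 6, 0, 6, 1, 3, 5, 1, 3, 5, 2, 4, 1, 5, 1, 5, 1, 5, 2, 4, 2, 4, 2, 4, 3, 2, 4, 3, 3] v 0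
def C (v : ℕ) : ℕ := List.getD [4, 4, 4, 4, 4, 3, 4, 3, 3, 4, 3, 4, 4, 4, 3, 4, 4, 3, 3, 4, 4, 3, 4, 4, 3, 4, 3, 3, 4, 3, 2, 2, 2, 2, 2, 1, 2, 3, 4, 3, 0, 0, 2, 2, 2, 2, 2, 2, 1, 1, 0, 0, 1, 1, 1, 1, 1, 1, 1] v 0
def AA : ℕ := 445651214255948423188183162606710088751914715950760435667813685365817714630930737963995110706214475225044200507137292032052184783311347041746657325145408737121259333039633851270435709827934622022280422433527701906390666084560662032348684195209332876169195567555721152157106633499199996381168021350859087416028759867368139791509417004470482745380323646048259431716599205570608303255800737163400568972061842446698443105952403718942619265892984010854101483057392711695804346255258076006831667828096618704007242682287094661545228174910031035120094533517121595542058382147227003163248304943199380286742357067516641108728153058214081509235371308900788154331500535607941672006339418138117617691126877732247270723197158125930576253764725558796617525617381534634055146226946188575445816952910711120507394536925121323905702927510120105584755742481392585743701674671045927346481259862454496875238982868882992021419981780806910661941700452061475714365968487380557696807695556061683476050430825586185975015902110088748889327365125139360662795662782513680451231624348054260348573675595996004832058068901746416071429432101339521888280664604800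
def A (v : ℕ) : ℕ := Nat.mod (Nat.shiftRight AA (Nat.mul 64 v)) 18446744073709551616

def unit (a b : ℕ) : Bool :=
  (Nat.beq a 4 && Nat.ble b 1) || (Nat.beq a 3 && Nat.beq b 2) || (Nat.ble a 2 && Nat.beq b 3)

def ds (a b : ℕ) : ℕ := (a - b) + (b - a)

def adj (u v : ℕ) : Bool := unit (ds (X u) (X v)) (ds (Y u) (Y v))

def frc (x : ℕ) (k : ℕ → Bool) : Bool := Nat.rec (k 0) (fun n _ => k (Nat.succ n)) x

theorem frc_eq (x : ℕ) (k : ℕ → Bool) : frc x k = k x := by cases x <;> rfl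

def fst (a b : ℕ) : ℕ := cond (Nat.beq a 0) b a

def pick (f0 f1 f2 f3 u : ℕ) : ℕ :=
  Nat.log2 (fst (f0 &&& f1 &&& f2 &&& f3 &&& u)
    (fst (((f0 &&& f1 &&& (f2 ||| f3)) ||| (f2 &&& f3 &&& (f0 ||| f1))) &&& u)
      (fst (((f0 &&& f1) ||| (f2 &&& f3) ||| ((f0 ||| f1) &&& (f2 ||| f3))) &&& u) u)))

def go : ℕ → ℕ → ℕ → ℕ → ℕ → ℕ → Bool
  | 0, _, _, _, _, _ => false
  | n + 1, f0, f1, f2, f3, u =>
    frc (pick f0 f1 f2 f3 u) fun v => frc (u ^^^ (1 <<< v)) fun w => frc (A v) fun a =>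
      Nat.blt v 59 &&
      (Nat.testBit f0 v || frc (f0 ||| a) fun g => go n g f1 f2 f3 w) &&
      (Nat.testBit f1 v || frc (f1 ||| a) fun g => go n f0 g f2 f3 w) &&
      (Nat.testBit f2 v || frc (f2 ||| a) fun g => go n f0 f1 g f3 w) &&
      (Nat.testBit f3 v || frc (f3 ||| a) fun g => go n f0 f1 f2 g w)

theorem go_run : go 60 (A 53) (A 44) (A 25) 0 (2 ^ 59 - 1 - 2 ^ 53 - 2 ^ 44 - 2 ^ 25) = true := by
  decide +kernel

theorem chk : ((List.range 59).all fun u => Nat.blt (C u) 5 && (List.range 59).all fun v =>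
    (!(Nat.testBit (A u) v) || adj u v) && (!(adj u v) || !(Nat.beq (C u) (C v))) &&
    (Nat.beq u v || !(Nat.beq (X u) (X v)) || !(Nat.beq (Y u) (Y v)))) = true := by
  decide +kernel

theorem chk' {u v : ℕ} (hu : u < 59) (hv : v < 59) : C u < 5 ∧ (Nat.testBit (A u) v = true → adj u v = true)
    ∧ (adj u v = true → C u ≠ C v) ∧ (X u = X v → Y u = Y v → u = v) := by
  have h := chk
  simp only [List.all_eq_true, List.mem_range, Bool.and_eq_true] at h
  obtain ⟨h1, h2⟩ := h u hu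
  obtain ⟨⟨h3, h4⟩, h5⟩ := h2 v hv
  refine ⟨by simpa [Nat.blt_eq] using h1, fun h => by simpa [h] using h3, fun h e => ?_, fun e1 e2 => ?_⟩
  · simp [h, e] at h4
  · simpa [e1, e2] using h5

theorem go_sound (c : ℕ → Fin 4) (hc : ∀ u < 59, ∀ v < 59, adj u v = true → c u ≠ c v) :
    ∀ n f0 f1 f2 f3 u, (∀ v < 59, Nat.testBit f0 v = true → c v ≠ 0) →
      (∀ v < 59, Nat.testBit f1 v = true → c v ≠ 1) → (∀ v < 59, Nat.testBit f2 v = true → c v ≠ 2) →
      (∀ v < 59, Nat.testBit f3 v = true → c v ≠ 3) → go n f0 f1 f2 f3 u = true → False := by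
  intro n
  induction n with
  | zero => intro f0 f1 f2 f3 u _ _ _ _ h; simp [go] at h
  | succ n ih =>
    intro f0 f1 f2 f3 u h0 h1 h2 h3 h
    simp only [go, frc_eq, Bool.and_eq_true, Bool.or_eq_true, Nat.blt_eq] at h
    generalize pick f0 f1 f2 f3 u = v at h
    obtain ⟨⟨⟨⟨hv, a0⟩, a1⟩, a2⟩, a3⟩ := h
    have key : ∀ (f : ℕ) (k : Fin 4), c v = k → (∀ w < 59, Nat.testBit f w = true → c w ≠ k) →
        ∀ w < 59, Nat.testBit (f ||| A v) w = true → c w ≠ k := by
      intro f k hk hf w hw hb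
      rw [Nat.testBit_or, Bool.or_eq_true] at hb
      rcases hb with hb | hb
      · exact hf w hw hb
      · rw [← hk]; exact (hc v hv w hw ((chk' hv hw).2.1 hb)).symm
    have : ∀ k : Fin 4, k = 0 ∨ k = 1 ∨ k = 2 ∨ k = 3 := by decide
    rcases this (c v) with e | e | e | e
    · exact a0.elim (fun t => h0 v hv t e) (ih _ _ _ _ _ (key _ _ e h0) h1 h2 h3)
    · exact a1.elim (fun t => h1 v hv t e) (ih _ _ _ _ _ h0 (key _ _ e h1) h2 h3)
    · exact a2.elim (fun t => h2 v hv t e) (ih _ _ _ _ _ h0 h1 (key _ _ e h2) h3)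
    · exact a3.elim (fun t => h3 v hv t e) (ih _ _ _ _ _ h0 h1 h2 (key _ _ e h3))

def sg (x y z t : Fin 4) : Fin 4 := if t = x then 0 else if t = y then 1 else if t = z then 2 else 3

theorem sg_spec : ∀ x y z : Fin 4, x ≠ y → x ≠ z → y ≠ z →
    sg x y z x = 0 ∧ sg x y z y = 1 ∧ sg x y z z = 2 ∧ ∀ s t, sg x y z s = sg x y z t → s = t := by
  decide +kernel

theorem no4 (c : ℕ → Fin 4) (hc : ∀ u < 59, ∀ v < 59, adj u v = true → c u ≠ c v) : False := by
  obtain ⟨e0, e1, e2, inj⟩ := sg_spec (c 53) (c 44) (c 25)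
    (hc 53 (by norm_num) 44 (by norm_num) (by decide +kernel))
    (hc 53 (by norm_num) 25 (by norm_num) (by decide +kernel))
    (hc 44 (by norm_num) 25 (by norm_num) (by decide +kernel))
  have hd : ∀ u < 59, ∀ v < 59, adj u v = true →
      sg (c 53) (c 44) (c 25) (c u) ≠ sg (c 53) (c 44) (c 25) (c v) :=
    fun u hu v hv h e => hc u hu v hv h (inj _ _ e)
  refine go_sound (fun v => sg (c 53) (c 44) (c 25) (c v)) hd _ _ _ _ _ _ ?_ ?_ ?_ ?_ go_run
  · intro v hv hb; rw [← e0]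
    exact (hd 53 (by norm_num) v hv ((chk' (by norm_num) hv).2.1 hb)).symm
  · intro v hv hb; rw [← e1]
    exact (hd 44 (by norm_num) v hv ((chk' (by norm_num) hv).2.1 hb)).symm
  · intro v hv hb; rw [← e2]
    exact (hd 25 (by norm_num) v hv ((chk' (by norm_num) hv).2.1 hb)).symm
  · intro v _ hb; simp at hb

def K : Set (ℝ × ℝ) := {p | |p.1| ≤ 4 ∧ |p.2| ≤ 3 ∧ |p.1| + |p.2| ≤ 5}

theorem K_closed : IsClosed K := by
  have h1 : IsClosed {p : ℝ × ℝ | |p.1| ≤ 4} := isClosed_le (by fun_prop) continuous_const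
  have h2 : IsClosed {p : ℝ × ℝ | |p.2| ≤ 3} := isClosed_le (by fun_prop) continuous_const
  have h3 : IsClosed {p : ℝ × ℝ | |p.1| + |p.2| ≤ 5} := isClosed_le (by fun_prop) continuous_const
  exact h1.inter (h2.inter h3)

theorem K_compact : IsCompact K := by
  refine ((isCompact_Icc (a := (-4 : ℝ)) (b := 4)).prod (isCompact_Icc (a := (-3 : ℝ)) (b := 3))).of_isClosed_subset
    K_closed ?_
  rintro p ⟨h1, h2, -⟩
  exact ⟨abs_le.1 h1, abs_le.1 h2⟩

theorem K_convex : Convex ℝ K := by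
  rintro p ⟨p1, p2, p3⟩ q ⟨q1, q2, q3⟩ a b ha hb hab
  have e1 : |a * p.1 + b * q.1| ≤ a * |p.1| + b * |q.1| := by
    refine (abs_add_le _ _).trans ?_
    rw [abs_mul, abs_mul, abs_of_nonneg ha, abs_of_nonneg hb]
  have e2 : |a * p.2 + b * q.2| ≤ a * |p.2| + b * |q.2| := by
    refine (abs_add_le _ _).trans ?_
    rw [abs_mul, abs_mul, abs_of_nonneg ha, abs_of_nonneg hb]
  refine ⟨?_, ?_, ?_⟩ <;> simp only [Prod.fst_add, Prod.snd_add, Prod.smul_fst, Prod.smul_snd, smul_eq_mul] <;>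
    nlinarith

theorem K_nhds : K ∈ nhds (0 : ℝ × ℝ) := by
  refine Filter.mem_of_superset (Metric.ball_mem_nhds 0 one_pos) ?_
  intro p hp
  rw [mem_ball_zero_iff, Prod.norm_def, max_lt_iff, Real.norm_eq_abs, Real.norm_eq_abs] at hp
  refine ⟨by linarith [hp.1], by linarith [hp.2], by linarith [hp.1, hp.2]⟩

theorem front {p : ℝ × ℝ} (hp : p ∈ K) (h : |p.1| = 4 ∨ |p.2| = 3 ∨ |p.1| + |p.2| = 5) :
    p ∈ frontier K := by
  rw [K_closed.frontier_eq]
  refine ⟨hp, fun hi => ?_⟩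
  rw [mem_interior_iff_mem_nhds] at hi
  have ht : Filter.Tendsto (fun t : ℝ => t • p) (nhds 1) (nhds p) := by
    have : Continuous (fun t : ℝ => t • p) := by fun_prop
    simpa using this.tendsto 1
  obtain ⟨t, ht1, h1, h2, h3⟩ := (ht.eventually hi).exists_gt
  simp only [Prod.smul_fst, Prod.smul_snd, smul_eq_mul, abs_mul, abs_of_pos (lt_trans one_pos ht1)] at h1 h2 h3
  rcases h with h | h | h
  · rw [h] at h1; linarith
  · rw [h] at h2; linarith
  · rw [← mul_add, h] at h3; linarith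

theorem ds_cast (a b : ℕ) : |(a : ℝ) - b| = (ds a b : ℕ) := by
  unfold ds
  rcases le_total a b with h | h
  · rw [Nat.sub_eq_zero_of_le h, zero_add, Nat.cast_sub h, abs_sub_comm,
      abs_of_nonneg (sub_nonneg.2 (by exact_mod_cast h))]
  · rw [Nat.sub_eq_zero_of_le h, add_zero, Nat.cast_sub h,
      abs_of_nonneg (sub_nonneg.2 (by exact_mod_cast h))]

theorem adj_front {u v : ℕ} (h : adj u v = true) :
    ((X u : ℝ), (Y u : ℝ)) - ((X v : ℝ), (Y v : ℝ)) ∈ frontier K := by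
  simp only [adj, unit, Bool.or_eq_true, Bool.and_eq_true, Nat.beq_eq, Nat.ble_eq] at h
  apply front
  · simp only [K, Set.mem_ofPred_eq, Prod.fst_sub, Prod.snd_sub, ds_cast]
    refine ⟨?_, ?_, ?_⟩ <;> norm_cast <;> omega
  · simp only [Prod.fst_sub, Prod.snd_sub, ds_cast]
    norm_cast; omega

theorem adj_symm (u v : ℕ) : adj u v = adj v u := by
  simp only [adj, ds, Nat.add_comm]

def G : SimpleGraph (Fin 59) where
  Adj u v := adj u v = true
  symm := ⟨fun u v h => by rw [adj_symm]; exact h⟩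
  loopless := ⟨fun u h => (chk' u.2 u.2).2.2.1 h rfl⟩

theorem result : ∃ K : Set (ℝ × ℝ), IsCompact K ∧ Convex ℝ K ∧ (interior K).Nonempty ∧ -K = K ∧
    ∃ (p : Fin 59 → ℝ × ℝ) (G : SimpleGraph (Fin 59)), Function.Injective p ∧
      (∀ u v, G.Adj u v → p u - p v ∈ frontier K ∧ gauge K (p u - p v) = 1) ∧
      G.chromaticNumber = 5 := by
  refine ⟨K, K_compact, K_convex, ⟨0, mem_interior_iff_mem_nhds.2 K_nhds⟩, ?_,
    fun v => ((X v : ℝ), (Y v : ℝ)), G, ?_, ?_, ?_⟩
  · ext p; simp [K]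
  · intro u v h
    simp only [Prod.mk.injEq, Nat.cast_inj] at h
    exact Fin.ext ((chk' u.2 v.2).2.2.2 h.1 h.2)
  · intro u v h
    exact ⟨adj_front h, (gauge_eq_one_iff_mem_frontier K_convex K_nhds).2 (adj_front h)⟩
  · have h5 : G.Colorable 5 := ⟨SimpleGraph.Coloring.mk (fun v => ⟨C v, (chk' v.2 v.2).1⟩)
      (fun {u v} h e => (chk' u.2 v.2).2.2.1 h (by simpa using e))⟩
    have h4 : ¬ G.Colorable 4 := by
      rintro ⟨c⟩
      refine no4 (fun v => if h : v < 59 then c ⟨v, h⟩ else 0) ?_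
      intro u hu v hv h
      simp only [hu, hv, dite_true]
      exact c.valid h
    refine le_antisymm h5.chromaticNumber_le ?_
    have : ¬ G.chromaticNumber ≤ (4 : ℕ) := fun h => h4 (SimpleGraph.chromaticNumber_le_iff_colorable.1 h)
    exact Order.add_one_le_of_lt (not_le.1 this)

end Pool.Agent.Results.MP_a2d1c1_co.Octagon
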